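import Pool.Agent.ARC.StmtsU

/-!
# Squad ARC (MP_160b6c_nt), row TV1: the translation operators (helper5)
-/

set_option autoImplicit false

namespace Pool.Agent.ARC.H5

open Pool.Agent.ZES Pool.Agent.ARC
open scoped BigOperators InnerProductSpace

variable {V : Type} [NormedAddCommGroup V] [InnerProductSpace ℂ V]

theorem al_ne (a : ℝ) (η x : V) : al a η x ≠ 0 := Complex.exp_ne_zero _

theorem al_add (a : ℝ) (η x y : V) :
    al a η (x + y) = al a η x * Complex.exp ((a : ℂ) * inner ℂ η y) := by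
  unfold al
  rw [← Complex.exp_add, inner_add_right]
  congr 1
  ring

theorem al_zero (a : ℝ) (x : V) : al a 0 x = 1 := by
  unfold al
  simp

theorem al_norm (a : ℝ) (η x : V) :
    ‖al a η x‖ = Real.exp (a * ((inner ℂ η x).re + ‖η‖ ^ 2 / 2)) := by
  unfold al
  rw [Complex.norm_exp]
  congr 1
  rw [Complex.re_ofReal_mul, Complex.add_re, Complex.ofReal_re]

theorem al_diff (a : ℝ) (η : V) : Differentiable ℂ (fun x : V => al a η x) := by
  have h1 : Differentiable ℂ fun x : V => innerSL ℂ η x := (innerSL ℂ η).differentiable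
  have h2 : Differentiable ℂ fun x : V =>
      (a : ℂ) * (innerSL ℂ η x + ((‖η‖ ^ 2 / 2 : ℝ) : ℂ)) :=
    (h1.add_const _).const_mul _
  exact h2.cexp

theorem al_inv_diff (a : ℝ) (η : V) : Differentiable ℂ (fun x : V => (al a η x)⁻¹) :=
  (al_diff a η).inv (fun x => al_ne a η x)

theorem sub_swap (η ω : V) :
    inner ℂ ω η - inner ℂ η ω = 2 * Complex.I * ((inner ℂ ω η).im : ℂ) := by
  rw [← inner_conj_symm η ω]
  generalize inner ℂ ω η = z
  apply Complex.ext
  · simp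
  · simp
    ring

/-- `exp (2 pi i Im <ω, ω'>) = 1` on the lattice. -/
theorem exp_one {L : AddSubgroup V} {χ : V → ℂ} (hL : LAT L χ) {ω ω' : V} (h : ω ∈ L)
    (h' : ω' ∈ L) :
    Complex.exp (2 * Real.pi * Complex.I * ((inner ℂ ω ω').im : ℂ)) = 1 := by
  have h1 := hL.mul ω h ω' h'
  have h2 := hL.mul ω' h' ω h
  rw [add_comm ω' ω, h1] at h2
  have h3 : (inner ℂ ω' ω).im = -(inner ℂ ω ω').im := by
    rw [← inner_conj_symm ω' ω, Complex.conj_im]
  have hχ : χ ω ≠ 0 := by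
    intro h0
    have := hL.sq ω h
    rw [h0] at this
    norm_num at this
  have hχ' : χ ω' ≠ 0 := by
    intro h0
    have := hL.sq ω' h'
    rw [h0] at this
    norm_num at this
  rw [h3, mul_comm (χ ω') (χ ω)] at h2
  have h4 := mul_left_cancel₀ (mul_ne_zero hχ hχ') h2
  have h5 : Complex.exp (2 * Real.pi * Complex.I * ((inner ℂ ω ω').im : ℂ)) =
      Complex.exp (Real.pi * Complex.I * ((inner ℂ ω ω').im : ℂ)) *
        Complex.exp (Real.pi * Complex.I * ((inner ℂ ω ω').im : ℂ)) := by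
    rw [← Complex.exp_add]
    congr 1
    ring
  rw [h5]
  nth_rewrite 1 [h4]
  rw [← Complex.exp_add, ← Complex.exp_zero]
  congr 1
  push_cast
  ring

theorem smul_norm (t : ℕ) (η : V) : ‖((t : ℂ)) • η‖ ^ 2 = (t : ℝ) ^ 2 * ‖η‖ ^ 2 := by
  rw [norm_smul, mul_pow]
  congr 1
  simp

/-- row TV1 -/
theorem tv1 : Tv1Stmt := by
  intro V _ _ L χ hL n hn
  refine ⟨?_, ?_, ?_, ?_, ?_, ?_⟩
  · rintro η hη F ⟨hF1, hF2⟩
    refine ⟨(hF1.comp (differentiable_id.add_const η)).mul (al_inv_diff _ η), ?_⟩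
    intro ω hω x
    show F (x + ω + η) * (al (Real.pi * (n : ℝ)) η (x + ω))⁻¹ =
      χ ω ^ n * al (Real.pi * (n : ℝ)) ω x * (F (x + η) * (al (Real.pi * (n : ℝ)) η x)⁻¹)
    have e1 : F (x + ω + η) = χ ω ^ n * al (Real.pi * (n : ℝ)) ω (x + η) * F (x + η) := by
      rw [← hF2 ω hω (x + η)]
      congr 1
      abel
    rw [e1, al_add _ ω x η, al_add _ η x ω]
    have e2 : Complex.exp (((Real.pi * (n : ℝ) : ℝ) : ℂ) * inner ℂ ω η) =
        Complex.exp (((Real.pi * (n : ℝ) : ℝ) : ℂ) * inner ℂ η ω) := by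
      have e3 := exp_one hL hω hη
      have e4 : inner ℂ ω η = inner ℂ η ω + 2 * Complex.I * ((inner ℂ ω η).im : ℂ) := by
        rw [← sub_swap]
        ring
      have e5 : (inner ℂ ω ((n : ℂ) • η)).im = (n : ℝ) * (inner ℂ ω η).im := by
        rw [inner_smul_right]
        simp
      rw [e5] at e3
      rw [e4, mul_add, Complex.exp_add]
      have e6 : ((Real.pi * (n : ℝ) : ℝ) : ℂ) * (2 * Complex.I * ((inner ℂ ω η).im : ℂ)) =
          2 * Real.pi * Complex.I * (((n : ℝ) * (inner ℂ ω η).im : ℝ) : ℂ) := by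
        push_cast
        ring
      rw [e6, e3, mul_one]
    rw [e2, mul_inv]
    have h1 := Complex.exp_ne_zero (((Real.pi * (n : ℝ) : ℝ) : ℂ) * inner ℂ η ω)
    field_simp
  · intro η S F hF x
    show ‖F (x + η) * (al (Real.pi * (n : ℝ)) η x)⁻¹‖ ≤ _
    rw [norm_mul, norm_inv, al_norm]
    have h1 := hF (x + η)
    have h2 : ‖x + η‖ ^ 2 = ‖x‖ ^ 2 + 2 * (inner ℂ η x).re + ‖η‖ ^ 2 := by
      have h3 := norm_add_sq (𝕜 := ℂ) x η
      have h4 : (inner ℂ x η).re = (inner ℂ η x).re := by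
        rw [← inner_conj_symm x η, Complex.conj_re]
      rw [h3, ← h4]
      rfl
    have hp := Real.exp_pos (Real.pi * (n : ℝ) * ((inner ℂ η x).re + ‖η‖ ^ 2 / 2))
    calc ‖F (x + η)‖ * (Real.exp (Real.pi * (n : ℝ) * ((inner ℂ η x).re + ‖η‖ ^ 2 / 2)))⁻¹
        ≤ (S * Real.exp (Real.pi * (n : ℝ) * ‖x + η‖ ^ 2 / 2)) *
          (Real.exp (Real.pi * (n : ℝ) * ((inner ℂ η x).re + ‖η‖ ^ 2 / 2)))⁻¹ := by
          gcongr
      _ = S * Real.exp (Real.pi * (n : ℝ) * ‖x‖ ^ 2 / 2) := by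
          rw [← Real.exp_neg, mul_assoc, ← Real.exp_add, h2]
          congr 2
          ring
  · intro η η' F x
    show F (x + η + η') * (al (Real.pi * (n : ℝ)) η' (x + η))⁻¹ * (al (Real.pi * (n : ℝ)) η x)⁻¹
      = _ * (F (x + η' + η) * (al (Real.pi * (n : ℝ)) η (x + η'))⁻¹ *
        (al (Real.pi * (n : ℝ)) η' x)⁻¹)
    have e1 : x + η' + η = x + η + η' := by abel
    rw [e1, al_add _ η' x η, al_add _ η x η']
    have e2 : Complex.exp (((Real.pi * (n : ℝ) : ℝ) : ℂ) * inner ℂ η η') =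
        Complex.exp (2 * Real.pi * Complex.I * (n : ℂ) * ((inner ℂ η η').im : ℂ)) *
        Complex.exp (((Real.pi * (n : ℝ) : ℝ) : ℂ) * inner ℂ η' η) := by
      rw [← Complex.exp_add]
      congr 1
      have e4 : inner ℂ η η' = inner ℂ η' η + 2 * Complex.I * ((inner ℂ η η').im : ℂ) := by
        rw [← sub_swap]
        ring
      nth_rewrite 1 [e4]
      push_cast
      ring
    rw [e2]
    have h1 := Complex.exp_ne_zero (((Real.pi * (n : ℝ) : ℝ) : ℂ) * inner ℂ η' η)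
    have h2 := Complex.exp_ne_zero
      (2 * Real.pi * Complex.I * (n : ℂ) * ((inner ℂ η η').im : ℂ))
    have h3 := al_ne (Real.pi * (n : ℝ)) η x
    have h4 := al_ne (Real.pi * (n : ℝ)) η' x
    field_simp
  · intro η t F
    induction t with
    | zero =>
      funext x
      show F x = F (x + ((0 : ℕ) : ℂ) • η) *
        (al (Real.pi * (n : ℝ)) (((0 : ℕ) : ℂ) • η) x)⁻¹
      rw [Nat.cast_zero, zero_smul, add_zero, al_zero, inv_one, mul_one]
    | succ t ih =>
      rw [Function.iterate_succ_apply', ih]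
      funext x
      show F (x + η + (t : ℂ) • η) * (al (Real.pi * (n : ℝ)) ((t : ℂ) • η) (x + η))⁻¹ *
        (al (Real.pi * (n : ℝ)) η x)⁻¹ = F (x + (((t + 1 : ℕ) : ℂ)) • η) *
        (al (Real.pi * (n : ℝ)) (((t + 1 : ℕ) : ℂ) • η) x)⁻¹
      have e1 : x + (((t + 1 : ℕ) : ℂ)) • η = x + η + (t : ℂ) • η := by
        rw [Nat.cast_add, Nat.cast_one, add_smul, one_smul]
        abel
      have e2 : al (Real.pi * (n : ℝ)) (((t + 1 : ℕ) : ℂ) • η) x =
          al (Real.pi * (n : ℝ)) ((t : ℂ) • η) (x + η) * al (Real.pi * (n : ℝ)) η x := by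
        unfold al
        have e3 : inner ℂ η η = ((‖η‖ : ℝ) : ℂ) ^ 2 := by
          exact_mod_cast inner_self_eq_norm_sq_to_K (𝕜 := ℂ) η
        rw [← Complex.exp_add, smul_norm, smul_norm, inner_smul_left, inner_smul_left,
          inner_add_right, e3]
        congr 1
        have c1 : (starRingEnd ℂ) ((t : ℕ) : ℂ) = (t : ℂ) := Complex.conj_natCast t
        have c2 : (starRingEnd ℂ) (((t + 1 : ℕ)) : ℂ) = ((t + 1 : ℕ) : ℂ) :=
          Complex.conj_natCast (t + 1)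
        rw [c1, c2]
        push_cast
        ring
      rw [e1, e2, mul_inv]
      ring
  · rintro ω hω F ⟨hF1, hF2⟩ x
    show F (x + ω) * (al (Real.pi * (n : ℝ)) ω x)⁻¹ = χ ω ^ n * F x
    rw [hF2 ω hω x]
    have h3 := al_ne (Real.pi * (n : ℝ)) ω x
    field_simp
  · intro η F G c
    funext x
    show (F (x + η) + c * G (x + η)) * (al (Real.pi * (n : ℝ)) η x)⁻¹ =
      F (x + η) * (al (Real.pi * (n : ℝ)) η x)⁻¹ +
        c * (G (x + η) * (al (Real.pi * (n : ℝ)) η x)⁻¹)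
    ring

end Pool.Agent.ARC.H5
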